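import Pool.Agent.W96.CL.Stm
set_option autoImplicit false

/-!
# Crossing rate of long rectangles: irreducibility of the transfer matrix
-/

namespace W96CL
namespace IrrAux

section mat
variable {S : Type}

/-- entrywise nonnegative -/
def NN (M : Matrix S S ℝ) : Prop := ∀ a b, 0 ≤ M a b

/-- entrywise order -/
def MLE (M N : Matrix S S ℝ) : Prop := ∀ a b, M a b ≤ N a b

theorem NN.add {M N : Matrix S S ℝ} (hM : NN M) (hN : NN N) : NN (M + N) := fun a b => by
  rw [Matrix.add_apply]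
  exact add_nonneg (hM a b) (hN a b)

theorem NN.smul {M : Matrix S S ℝ} {c : ℝ} (hc : 0 ≤ c) (hM : NN M) : NN (c • M) := fun a b => by
  rw [Matrix.smul_apply, smul_eq_mul]
  exact mul_nonneg hc (hM a b)

theorem MLE.rfl' {M : Matrix S S ℝ} : MLE M M := fun _ _ => le_refl _

theorem MLE.trans {M N P : Matrix S S ℝ} (h1 : MLE M N) (h2 : MLE N P) : MLE M P :=
  fun a b => (h1 a b).trans (h2 a b)

theorem MLE.add_left {M N : Matrix S S ℝ} (hN : NN N) : MLE M (M + N) := fun a b => by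
  rw [Matrix.add_apply]
  linarith [hN a b]

theorem MLE.add_right {M N : Matrix S S ℝ} (hM : NN M) : MLE N (M + N) := fun a b => by
  rw [Matrix.add_apply]
  linarith [hM a b]

variable [Fintype S]

theorem NN.mul {M N : Matrix S S ℝ} (hM : NN M) (hN : NN N) : NN (M * N) := fun a b => by
  rw [Matrix.mul_apply]
  exact Finset.sum_nonneg (fun c _ => mul_nonneg (hM a c) (hN c b))

theorem MLE.mul {M' M N' N : Matrix S S ℝ} (hM' : NN M') (hN : NN N) (h1 : MLE M' M)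
    (h2 : MLE N' N) : MLE (M' * N') (M * N) := fun a b => by
  rw [Matrix.mul_apply, Matrix.mul_apply]
  refine Finset.sum_le_sum (fun c _ => ?_)
  calc M' a c * N' c b ≤ M' a c * N c b := mul_le_mul_of_nonneg_left (h2 c b) (hM' a c)
    _ ≤ M a c * N c b := mul_le_mul_of_nonneg_right (h1 a c) (hN c b)

theorem le_mul_apply {M N : Matrix S S ℝ} (hM : NN M) (hN : NN N) (a c b : S) :
    M a c * N c b ≤ (M * N) a b := by
  rw [Matrix.mul_apply]
  exact Finset.single_le_sum (f := fun c => M a c * N c b)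
    (fun c _ => mul_nonneg (hM a c) (hN c b)) (Finset.mem_univ c)

variable [DecidableEq S]

omit [Fintype S] in
theorem NN.one : NN (1 : Matrix S S ℝ) := fun a b => by
  rw [Matrix.one_apply]
  split_ifs <;> norm_num

theorem NN.pow {M : Matrix S S ℝ} (hM : NN M) (k : ℕ) : NN (M ^ k) := by
  induction k with
  | zero =>
    rw [pow_zero]
    exact NN.one
  | succ k ih =>
    rw [pow_succ]
    exact NN.mul ih hM

end mat

theorem nn_ER (n i : ℕ) : NN (ER n i) := fun a b => by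
  unfold ER
  split_ifs <;> norm_num

theorem nn_lay0 (n m : ℕ) : ∀ i : ℕ, NN (lay0 (ER n) i m) := by
  induction m with
  | zero =>
    intro i
    exact NN.one
  | succ m ih =>
    intro i
    exact NN.mul (nn_ER n i) (ih (i + 2))

theorem nn_fac {n : ℕ} {p : ℝ} (hp : 0 ≤ p) (hp1 : p ≤ 1) (i : ℕ) :
    NN (p • (1 : Matrix (St n) (St n) ℝ) + (1 - p) • ER n i) :=
  NN.add (NN.smul hp NN.one) (NN.smul (by linarith) (nn_ER n i))

theorem nn_layR {n : ℕ} {p : ℝ} (hp : 0 ≤ p) (hp1 : p ≤ 1) (m : ℕ) :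
    ∀ i : ℕ, NN (layR n p i m) := by
  induction m with
  | zero =>
    intro i
    exact NN.one
  | succ m ih =>
    intro i
    exact NN.mul (nn_fac hp hp1 i) (ih (i + 2))

theorem fac_ge_one {n : ℕ} {p : ℝ} (hp1 : p ≤ 1) (i : ℕ) :
    MLE (p • (1 : Matrix (St n) (St n) ℝ))
      (p • (1 : Matrix (St n) (St n) ℝ) + (1 - p) • ER n i) :=
  MLE.add_left (NN.smul (by linarith) (nn_ER n i))

theorem fac_ge_E {n : ℕ} {p : ℝ} (hp : 0 ≤ p) (i : ℕ) :
    MLE ((1 - p) • ER n i) (p • (1 : Matrix (St n) (St n) ℝ) + (1 - p) • ER n i) :=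
  MLE.add_right (NN.smul hp NN.one)

theorem layR_one {n : ℕ} {p : ℝ} (hp : 0 ≤ p) (hp1 : p ≤ 1) (m : ℕ) :
    ∀ i : ℕ, MLE (p ^ m • (1 : Matrix (St n) (St n) ℝ)) (layR n p i m) := by
  induction m with
  | zero =>
    intro i
    rw [pow_zero, one_smul]
    exact MLE.rfl'
  | succ m ih =>
    intro i
    have h := MLE.mul (NN.smul hp NN.one) (nn_layR hp hp1 m (i + 2)) (fac_ge_one (n := n) hp1 i)
      (ih (i + 2))
    have h2 : p ^ (m + 1) • (1 : Matrix (St n) (St n) ℝ)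
        = (p • (1 : Matrix (St n) (St n) ℝ)) * (p ^ m • (1 : Matrix (St n) (St n) ℝ)) := by
      rw [smul_mul_smul_comm, mul_one, pow_succ, mul_comm]
    rw [h2]
    exact h

theorem layR_lay0 {n : ℕ} {p : ℝ} (hp : 0 ≤ p) (hp1 : p ≤ 1) (m : ℕ) :
    ∀ i : ℕ, MLE ((1 - p) ^ m • lay0 (ER n) i m) (layR n p i m) := by
  induction m with
  | zero =>
    intro i
    rw [pow_zero, one_smul]
    exact MLE.rfl'
  | succ m ih =>
    intro i
    have h := MLE.mul (NN.smul (by linarith) (nn_ER n i)) (nn_layR hp hp1 m (i + 2))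
      (fac_ge_E hp i) (ih (i + 2))
    have h2 : (1 - p) ^ (m + 1) • lay0 (ER n) i (m + 1)
        = ((1 - p) • ER n i) * ((1 - p) ^ m • lay0 (ER n) (i + 2) m) := by
      rw [smul_mul_smul_comm, pow_succ, mul_comm]
      rfl
    rw [h2]
    exact h

theorem layR_E {n : ℕ} {p : ℝ} (hp : 0 < p) (hp1 : p < 1) (m : ℕ) :
    ∀ i k : ℕ, k < m → ∃ c : ℝ, 0 < c ∧ MLE (c • ER n (i + 2 * k)) (layR n p i m) := by
  induction m with
  | zero =>
    intro i k hk
    exact absurd hk (Nat.not_lt_zero k)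
  | succ m ih =>
    intro i k hk
    rcases k with _ | k
    · refine ⟨(1 - p) * p ^ m, mul_pos (by linarith) (pow_pos hp m), ?_⟩
      have h := MLE.mul (NN.smul (by linarith) (nn_ER n i)) (nn_layR hp.le hp1.le m (i + 2))
        (fac_ge_E hp.le i) (layR_one hp.le hp1.le m (i + 2))
      have h2 : ((1 - p) * p ^ m) • ER n (i + 2 * 0)
          = ((1 - p) • ER n i) * (p ^ m • (1 : Matrix (St n) (St n) ℝ)) := by
        rw [smul_mul_smul_comm, mul_one, mul_zero, add_zero]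
      rw [h2]
      exact h
    · obtain ⟨c, hc, hcE⟩ := ih (i + 2) k (by omega)
      refine ⟨p * c, mul_pos hp hc, ?_⟩
      have h := MLE.mul (NN.smul hp.le NN.one) (nn_layR hp.le hp1.le m (i + 2))
        (fac_ge_one (n := n) hp1.le i) hcE
      have h2 : (p * c) • ER n (i + 2 * (k + 1))
          = (p • (1 : Matrix (St n) (St n) ℝ)) * (c • ER n (i + 2 + 2 * k)) := by
        rw [smul_mul_smul_comm, one_mul]
        congr 2
        omega
      rw [h2]
      exact h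

theorem nn_TT {n : ℕ} {p : ℝ} (hp : 0 ≤ p) (hp1 : p ≤ 1) : NN (TT n p) :=
  NN.mul (nn_layR hp hp1 (n - 1) 1) (nn_layR hp hp1 n 0)

theorem TT_one {n : ℕ} {p : ℝ} (hp : 0 ≤ p) (hp1 : p ≤ 1) :
    MLE ((p ^ (n - 1) * p ^ n) • (1 : Matrix (St n) (St n) ℝ)) (TT n p) := by
  have h := MLE.mul (NN.smul (pow_nonneg hp (n - 1)) NN.one) (nn_layR hp hp1 n 0)
    (layR_one (n := n) hp hp1 (n - 1) 1) (layR_one hp hp1 n 0)
  rw [smul_mul_smul_comm, mul_one] at h
  exact h

theorem TT_E {n : ℕ} {p : ℝ} (hp : 0 < p) (hp1 : p < 1) (i : ℕ) :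
    ∃ c : ℝ, 0 < c ∧ MLE (c • ER n i) (TT n p) := by
  by_cases h0 : i % 2 = 0 ∧ i / 2 < n
  · obtain ⟨c, hc, h1⟩ := layR_E (n := n) hp hp1 n 0 (i / 2) h0.2
    refine ⟨p ^ (n - 1) * c, mul_pos (pow_pos hp _) hc, ?_⟩
    have h := MLE.mul (NN.smul (pow_nonneg hp.le (n - 1)) NN.one) (nn_layR hp.le hp1.le n 0)
      (layR_one (n := n) hp.le hp1.le (n - 1) 1) h1
    rw [smul_mul_smul_comm, one_mul] at h
    have h2 : 0 + 2 * (i / 2) = i := by omega
    rw [h2] at h
    exact h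
  by_cases h1 : i % 2 = 1 ∧ i / 2 + 1 < n
  · obtain ⟨c, hc, h2⟩ := layR_E (n := n) hp hp1 (n - 1) 1 (i / 2) (by omega)
    refine ⟨c * p ^ n, mul_pos hc (pow_pos hp _), ?_⟩
    have h := MLE.mul (NN.smul hc.le (nn_ER n _)) (nn_layR hp.le hp1.le n 0)
      h2 (layR_one (n := n) hp.le hp1.le n 0)
    rw [smul_mul_smul_comm, mul_one] at h
    have h3 : 1 + 2 * (i / 2) = i := by omega
    rw [h3] at h
    exact h
  · refine ⟨p ^ (n - 1) * p ^ n, by positivity, ?_⟩
    have h2 : ER n i = 1 := by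
      funext a b
      have h3 : gen n i b.1 = b.1 := by
        unfold gen
        rw [dif_neg h0, dif_neg h1]
      unfold ER
      rw [h3, Matrix.one_apply]
      by_cases hab : a = b
      · subst hab
        simp
      · rw [if_neg hab, if_neg]
        intro h4
        exact hab (Subtype.ext h4.symm)
    rw [h2]
    exact TT_one hp.le hp1.le

theorem E_gen {n : ℕ} (i : ℕ) (σ : St n) (h : alive (gen n i σ.1)) :
    ER n i ⟨gen n i σ.1, Reach.gen i σ.1 σ.2 h⟩ σ = 1 := by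
  unfold ER
  simp

/-- every state is reached from the top -/
theorem reach_pos {n : ℕ} {p : ℝ} (hp : 0 < p) (hp1 : p < 1) {r : Setoid (Option (Fin n))}
    (hr : Reach n r) : ∀ σ : St n, σ.1 = r → ∃ l : ℕ, 0 < (TT n p ^ l) σ (st0 n) := by
  induction hr with
  | top =>
    intro σ hσ
    refine ⟨0, ?_⟩
    have h1 : σ = st0 n := Subtype.ext hσ
    rw [pow_zero, h1, Matrix.one_apply_eq]
    norm_num
  | gen i r hr hal ih =>
    intro σ hσ
    obtain ⟨l, hl⟩ := ih ⟨r, hr⟩ rfl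
    refine ⟨l + 1, ?_⟩
    obtain ⟨c, hc, hcE⟩ := TT_E (n := n) hp hp1 i
    have h1 : σ = ⟨gen n i r, Reach.gen i r hr hal⟩ := Subtype.ext hσ
    have h2 : ER n i σ ⟨r, hr⟩ = 1 := by
      rw [h1]
      exact E_gen i ⟨r, hr⟩ hal
    have h3 : c ≤ TT n p σ ⟨r, hr⟩ := by
      have h4 := hcE σ ⟨r, hr⟩
      rw [Matrix.smul_apply, h2, smul_eq_mul, mul_one] at h4
      exact h4
    rw [pow_succ']
    refine lt_of_lt_of_le ?_ (le_mul_apply (nn_TT hp.le hp1.le)
      (NN.pow (nn_TT hp.le hp1.le) l) σ ⟨r, hr⟩ (st0 n))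
    exact mul_pos (lt_of_lt_of_le hc h3) hl

theorem cut_top {n : ℕ} (hn : 1 ≤ n) (m : ℕ) : ∀ k : ℕ, 1 ≤ k → k + m = n →
    ∃ ρ : St n, ρ.1 none (some ⟨0, by omega⟩) ∧ 1 ≤ lay0 (ER n) (2 * k) m ρ (st0 n) := by
  induction m with
  | zero =>
    intro k _ _
    refine ⟨st0 n, ?_, ?_⟩
    · exact trivial
    · change (1 : ℝ) ≤ (1 : Matrix (St n) (St n) ℝ) (st0 n) (st0 n)
      rw [Matrix.one_apply_eq]
  | succ m ih =>
    intro k hk hkm
    obtain ⟨ρ', h1, h2⟩ := ih (k + 1) (by omega) (by omega)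
    have hg : gen n (2 * k) ρ'.1 = cutS ⟨k, by omega⟩ ρ'.1 := by
      unfold gen
      have hc : (2 * k) % 2 = 0 ∧ (2 * k) / 2 < n := ⟨by omega, by omega⟩
      rw [dif_pos hc]
      congr 2
      omega
    have h3 : (gen n (2 * k) ρ'.1) none (some ⟨0, by omega⟩) := by
      rw [hg]
      refine Or.inr ⟨by simp, ?_, h1⟩
      intro h4
      have h5 := Option.some.inj h4
      have h6 := congrArg Fin.val h5
      simp at h6
      omega
    have hal : alive (gen n (2 * k) ρ'.1) := ⟨_, h3⟩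
    refine ⟨⟨gen n (2 * k) ρ'.1, Reach.gen _ _ ρ'.2 hal⟩, h3, ?_⟩
    have h4 := le_mul_apply (nn_ER n (2 * k)) (nn_lay0 n m (2 * k + 2))
      ⟨gen n (2 * k) ρ'.1, Reach.gen _ _ ρ'.2 hal⟩ ρ' (st0 n)
    rw [E_gen (2 * k) ρ' hal, one_mul] at h4
    have h5 : 2 * k + 2 = 2 * (k + 1) := by ring
    rw [← h5] at h2
    exact h2.trans h4

end IrrAux

open IrrAux

/-- irreducibility and positivity of the transfer matrix -/
theorem cl_irr (h : S_rep) : S_irr := by
  intro n p hn hp hp1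
  have hq : 0 < 1 - p := by linarith
  have hnn : NN (TT n p) := nn_TT hp.le hp1.le
  obtain ⟨-, -, -, hjoin, -, -⟩ := h n hn
  -- the joins
  have hJ : ∀ σ : St n, (1 - p) ^ (n - 1) ≤ layR n p 1 (n - 1) (st0 n) σ := by
    intro σ
    have h1 := layR_lay0 (n := n) hp.le hp1.le (n - 1) 1 (st0 n) σ
    rw [Matrix.smul_apply, hjoin, if_pos rfl, smul_eq_mul, mul_one] at h1
    exact h1
  have hTop : ∀ σ : St n, 0 < TT n p (st0 n) σ := by
    intro σ
    have h1 : layR n p 1 (n - 1) (st0 n) σ * layR n p 0 n σ σ ≤ TT n p (st0 n) σ :=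
      le_mul_apply (nn_layR hp.le hp1.le (n - 1) 1) (nn_layR hp.le hp1.le n 0) (st0 n) σ σ
    have h2 : p ^ n ≤ layR n p 0 n σ σ := by
      have h3 := layR_one (n := n) hp.le hp1.le n 0 σ σ
      rw [Matrix.smul_apply, Matrix.one_apply_eq, smul_eq_mul, mul_one] at h3
      exact h3
    refine lt_of_lt_of_le ?_ h1
    exact mul_pos (lt_of_lt_of_le (pow_pos hq _) (hJ σ)) (lt_of_lt_of_le (pow_pos hp _) h2)
  refine ⟨hnn, ?_, ?_, ?_⟩
  · intro σ
    have h1 := TT_one (n := n) hp.le hp1.le σ σ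
    rw [Matrix.smul_apply, Matrix.one_apply_eq, smul_eq_mul, mul_one] at h1
    exact lt_of_lt_of_le (by positivity) h1
  · have h1 : ∀ τ : St n, ∃ l : ℕ, 0 < (TT n p ^ l) τ (st0 n) := fun τ =>
      reach_pos hp hp1 τ.2 τ rfl
    choose l hl using h1
    refine ⟨(Finset.univ.sup l) + 2, fun τ σ => ?_⟩
    have h2 : 0 < (TT n p ^ (l τ + 1)) τ σ := by
      rw [pow_succ]
      refine lt_of_lt_of_le ?_ (le_mul_apply (NN.pow hnn (l τ)) hnn τ (st0 n) σ)
      exact mul_pos (hl τ) (hTop σ)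
    have h3 : l τ ≤ Finset.univ.sup l := Finset.le_sup (Finset.mem_univ τ)
    rw [Matrix.sum_apply]
    refine lt_of_lt_of_le h2 ?_
    exact Finset.single_le_sum (f := fun k => (TT n p ^ k) τ σ)
      (fun k _ => NN.pow hnn k τ σ) (Finset.mem_range.2 (by omega))
  · obtain ⟨ρ, -, hρ⟩ := cut_top hn (n - 1) 1 le_rfl (by omega)
    have h1 : layR n p 1 (n - 1) (st0 n) ρ * layR n p 0 n ρ (st0 n) ≤ TT n p (st0 n) (st0 n) :=
      le_mul_apply (nn_layR hp.le hp1.le (n - 1) 1) (nn_layR hp.le hp1.le n 0) (st0 n) ρ (st0 n)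
    have h2 : p * (1 - p) ^ (n - 1) ≤ layR n p 0 n ρ (st0 n) := by
      obtain ⟨k, rfl⟩ : ∃ k, n = k + 1 := ⟨n - 1, by omega⟩
      have h3 : layR (k + 1) p 0 (k + 1) = (p • (1 : Matrix (St (k + 1)) (St (k + 1)) ℝ)
          + (1 - p) • ER (k + 1) 0) * layR (k + 1) p (0 + 2) k := rfl
      have h4 := MLE.mul (NN.smul hp.le NN.one) (nn_layR hp.le hp1.le k (0 + 2))
        (fac_ge_one (n := k + 1) hp1.le 0) (layR_lay0 (n := k + 1) hp.le hp1.le k (0 + 2))
      rw [← h3, smul_mul_smul_comm, one_mul] at h4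
      have h5 := h4 ρ (st0 (k + 1))
      rw [Matrix.smul_apply, smul_eq_mul] at h5
      have h6 : k + 1 - 1 = k := by omega
      rw [h6] at hρ ⊢
      refine le_trans ?_ h5
      have h7 : 0 ≤ p * (1 - p) ^ k := by positivity
      calc p * (1 - p) ^ k = p * (1 - p) ^ k * 1 := by ring
        _ ≤ _ := mul_le_mul_of_nonneg_left hρ h7
    refine le_trans ?_ h1
    have h3 : 2 * n - 2 = (n - 1) + (n - 1) := by omega
    rw [h3, pow_add]
    calc p * ((1 - p) ^ (n - 1) * (1 - p) ^ (n - 1))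
        = (1 - p) ^ (n - 1) * (p * (1 - p) ^ (n - 1)) := by ring
      _ ≤ _ := mul_le_mul (hJ ρ) h2 (by positivity)
        (nn_layR hp.le hp1.le (n - 1) 1 _ _)

end W96CL
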