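import Pool.Agent.W96.CL.Stm
set_option autoImplicit false

/-!
# Crossing rate of long rectangles: the entries of `DD` are polynomials
-/

open Polynomial

namespace W96CL
namespace PolyAux

variable {S : Type} [Fintype S] [DecidableEq S]

/-- scalar polynomial of degree `≤ d` -/
def SP (d : ℕ) (f : ℂ → ℂ) : Prop := ∃ P : ℂ[X], P.natDegree ≤ d ∧ ∀ x : ℂ, f x = P.eval x

/-- polynomial entries -/
def MP (d : ℕ) (f : ℂ → Matrix S S ℂ) : Prop := ∀ a b : S, SP d (fun x => f x a b)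

omit [DecidableEq S] in
theorem SP.mul {d1 d2 : ℕ} {f g : ℂ → ℂ} (hf : SP d1 f) (hg : SP d2 g) :
    SP (d1 + d2) (fun x => f x * g x) := by
  obtain ⟨P, hP, hP'⟩ := hf
  obtain ⟨Q, hQ, hQ'⟩ := hg
  refine ⟨P * Q, natDegree_mul_le.trans (by omega), fun x => ?_⟩
  rw [eval_mul, ← hP', ← hQ']

theorem SP.add {d : ℕ} {f g : ℂ → ℂ} (hf : SP d f) (hg : SP d g) :
    SP d (fun x => f x + g x) := by
  obtain ⟨P, hP, hP'⟩ := hf
  obtain ⟨Q, hQ, hQ'⟩ := hg
  refine ⟨P + Q, (natDegree_add_le _ _).trans (max_le hP hQ), fun x => ?_⟩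
  rw [eval_add, ← hP', ← hQ']

theorem SP.sub {d : ℕ} {f g : ℂ → ℂ} (hf : SP d f) (hg : SP d g) :
    SP d (fun x => f x - g x) := by
  obtain ⟨P, hP, hP'⟩ := hf
  obtain ⟨Q, hQ, hQ'⟩ := hg
  refine ⟨P - Q, (natDegree_sub_le _ _).trans (max_le hP hQ), fun x => ?_⟩
  rw [eval_sub, ← hP', ← hQ']

theorem SP.sum {ι : Type} [DecidableEq ι] {d : ℕ} (s : Finset ι) {f : ι → ℂ → ℂ}
    (hf : ∀ i ∈ s, SP d (f i)) : SP d (fun x => ∑ i ∈ s, f i x) := by
  induction s using Finset.induction_on with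
  | empty => exact ⟨0, by simp, fun x => by simp⟩
  | insert a s ha ih =>
    have h1 := SP.add (hf a (Finset.mem_insert_self a s))
      (ih (fun i hi => hf i (Finset.mem_insert_of_mem hi)))
    have h2 : (fun x => ∑ i ∈ insert a s, f i x) = fun x => f a x + ∑ i ∈ s, f i x := by
      funext x
      rw [Finset.sum_insert ha]
    rw [h2]
    exact h1

theorem SP.mono {d d' : ℕ} (h : d ≤ d') {f : ℂ → ℂ} (hf : SP d f) : SP d' f := by
  obtain ⟨P, hP, hP'⟩ := hf
  exact ⟨P, hP.trans h, hP'⟩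

theorem SP.const (c : ℂ) (d : ℕ) : SP d (fun _ => c) :=
  ⟨C c, by simp, fun x => by simp⟩

theorem SP.lin (c1 c0 : ℂ) : SP 1 (fun x => c1 * x + c0) :=
  ⟨C c1 * X + C c0, natDegree_linear_le, fun x => by simp⟩

omit [DecidableEq S] in
theorem MP.mul [DecidableEq S] {d1 d2 : ℕ} {f g : ℂ → Matrix S S ℂ} (hf : MP d1 f)
    (hg : MP d2 g) : MP (d1 + d2) (fun x => f x * g x) := by
  intro a b
  have h : (fun x => (f x * g x) a b) = fun x => ∑ c : S, f x a c * g x c b := by
    funext x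
    rw [Matrix.mul_apply]
  rw [h]
  exact SP.sum Finset.univ (fun c _ => SP.mul (hf a c) (hg c b))

omit [Fintype S] [DecidableEq S] in
theorem MP.add {d : ℕ} {f g : ℂ → Matrix S S ℂ} (hf : MP d f)
    (hg : MP d g) : MP d (fun x => f x + g x) := fun a b => SP.add (hf a b) (hg a b)

omit [Fintype S] [DecidableEq S] in
theorem MP.smul {d1 d2 : ℕ} {f : ℂ → ℂ} {g : ℂ → Matrix S S ℂ} (hf : SP d1 f)
    (hg : MP d2 g) : MP (d1 + d2) (fun x => f x • g x) := by
  intro a b
  have h : (fun x => (f x • g x) a b) = fun x => f x * g x a b := by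
    funext x
    simp [Matrix.smul_apply]
  rw [h]
  exact SP.mul hf (hg a b)

omit [Fintype S] [DecidableEq S] in
theorem MP.mono {d d' : ℕ} (h : d ≤ d') {f : ℂ → Matrix S S ℂ} (hf : MP d f) : MP d' f :=
  fun a b => SP.mono h (hf a b)

omit [Fintype S] [DecidableEq S] in
theorem MP.const (M : Matrix S S ℂ) (d : ℕ) : MP d (fun _ => M) := fun a b => SP.const (M a b) d

theorem sp_wF {f : ℂ → ℂ} (hf : SP 1 f) : SP 1 (fun x => wF (f x)) := by
  have h : (fun x => wF (f x)) = fun x => uu + (1 - uu) * f x := by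
    funext x
    rw [wF]
  rw [h]
  exact SP.add (SP.const uu 1) ((SP.mul (SP.const (1 - uu) 0) hf).mono (by norm_num))

theorem sp_wT {f : ℂ → ℂ} (hf : SP 1 f) : SP 1 (fun x => wT (f x)) := by
  have h : (fun x => wT (f x)) = fun x => (1 - uu) + uu * f x := by
    funext x
    rw [wT]
  rw [h]
  exact SP.add (SP.const (1 - uu) 1) ((SP.mul (SP.const uu 0) hf).mono (by norm_num))

theorem sp_div (z : ℂ) : SP 1 (fun x => x / z) := by
  have h : (fun x : ℂ => x / z) = fun x => z⁻¹ * x + 0 := by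
    funext x
    rw [add_zero, div_eq_mul_inv, mul_comm]
  rw [h]
  exact SP.lin _ _

theorem sp_mul (z : ℂ) : SP 1 (fun x => x * z) := by
  have h : (fun x : ℂ => x * z) = fun x => z * x + 0 := by
    funext x
    rw [add_zero, mul_comm]
  rw [h]
  exact SP.lin _ _

theorem sp_tau (z : ℂ) : SP 2 (fun x => tau x z) := by
  have h : (fun x => tau x z) = fun x => wT (x / z) * wT (x * z) := by
    funext x
    rw [tau]
  rw [h]
  exact SP.mul (sp_wT (sp_div z)) (sp_wT (sp_mul z))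

theorem sp_ph1 (z : ℂ) : SP 2 (fun x => ph1 x z) := by
  have h : (fun x => ph1 x z) = fun x => (1 + x / z) * (1 + x * z) := by
    funext x
    rw [ph1]
  rw [h]
  exact SP.mul (SP.add (SP.const 1 1) (sp_div z)) (SP.add (SP.const 1 1) (sp_mul z))

theorem mp_XX (e : ℕ → Matrix S S ℂ) (i : ℕ) {f : ℂ → ℂ} (hf : SP 1 f) :
    MP 1 (fun x => XX e i (f x)) := by
  have h : (fun x => XX e i (f x))
      = fun x => wF (f x) • (1 : Matrix S S ℂ) + wT (f x) • e i := by
    funext x
    rw [XX]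
  rw [h]
  exact MP.add ((MP.smul (sp_wF hf) (MP.const 1 0)).mono (by norm_num))
    ((MP.smul (sp_wT hf) (MP.const (e i) 0)).mono (by norm_num))

theorem mp_BB (e : ℕ → Matrix S S ℂ) (L : List ℂ) : ∀ i : ℕ,
    MP (2 * L.length) (fun x => BB e x i L) := by
  induction L with
  | nil =>
    intro i
    exact MP.const 1 _
  | cons z L ih =>
    intro i
    have h1 := MP.mul (MP.mul (mp_XX e i (sp_div z)) (ih (i + 1))) (mp_XX e i (sp_mul z))
    refine (MP.mono ?_ h1)
    rw [List.length_cons]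
    omega

theorem mp_DD (e : ℕ → Matrix S S ℂ) (L : List ℂ) : ∀ i : ℕ,
    MP (2 * L.length) (fun x => DD e x i L) := by
  induction L with
  | nil =>
    intro i
    exact MP.const 1 _
  | cons z L ih =>
    intro i
    have h1 := MP.smul (SP.sub (sp_ph1 z) (sp_tau z)) (mp_BB e L i)
    have h2 := MP.smul (sp_tau z) (ih (i + 1))
    refine (MP.mono ?_ (MP.add h1 h2))
    rw [List.length_cons]
    omega

end PolyAux

/-- the entries of `DD` are polynomials -/
theorem cl_poly : S_poly := by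
  intro S _ _ e i L a b
  exact PolyAux.mp_DD e L i a b

end W96CL
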